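import Pool.Agent.Helper32.KD2.St.A1

/-! KD2-D2: lower bound of the operator by its middle part (II.3 (iv),(v)).  Uses A1. -/

namespace KD.II.D2

open Finset MeasureTheory

/-- the three regions cover the space -/
theorem cover3 {d : ℕ} {h ρ : ℝ} (hρ : h ≤ ρ) :
    (Set.univ : Set (Vd d)) = (bal d h ∪ ann d h ρ) ∪ far d ρ := by
  ext w
  simp only [bal, ann, far, Set.mem_univ, Set.mem_union, Set.mem_setOf_eq, true_iff]
  rcases lt_or_ge ‖w‖ h with h1 | h1
  · exact Or.inl (Or.inl h1)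
  · rcases lt_or_ge ‖w‖ ρ with h2 | h2
    · exact Or.inl (Or.inr ⟨h1, h2⟩)
    · exact Or.inr h2

/-- splitting of the whole integral -/
theorem int_split {d : ℕ} {h ρ : ℝ} (hρ : h ≤ ρ) {g : Vd d → ℝ} (h1 : IntegrableOn g (bal d h))
    (h2 : IntegrableOn g (ann d h ρ)) (h3 : IntegrableOn g (far d ρ)) :
    ∫ w, g w = (∫ w in bal d h, g w) + (∫ w in ann d h ρ, g w) + ∫ w in far d ρ, g w := by
  rw [← setIntegral_univ, cover3 hρ, setIntegral_union ?_ (far_meas ρ) (h1.union h2) h3,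
    setIntegral_union ?_ (ann_meas h ρ) h1 h2]
  · rw [Set.disjoint_left]
    intro w hw hw'
    exact absurd hw (not_lt.2 hw'.1)
  · rw [Set.disjoint_left]
    rintro w (hw | hw) hw'
    · exact absurd (lt_of_lt_of_le hw hρ) (not_lt.2 hw')
    · exact absurd hw.2 (not_lt.2 hw')

theorem Lop_lower (d : ℕ) (hd : 1 ≤ d) (s lam Lam : ℝ) (hs : 0 < s) (hs1 : s < 1) (hlam : 0 < lam)
    (hLam : lam ≤ Lam) :
    ∃ C : ℝ, 0 ≤ C ∧ ∀ (η Cf : ℝ) (a : ℝ → Vd d → Vd d → Vd d → ℝ) (f G : ℝ → Vd d → Vd d → ℝ)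
      (_ : Loc s η a f G Cf) (_ : ∀ t x v, 0 ≤ f t x v) (t : ℝ) (x v : Vd d)
      (_ : Adm lam Lam (a t x v)) (h ρ : ℝ),
      -1 ≤ t → t ≤ 0 → ‖x‖ ≤ 1 → 0 < h → h ≤ ρ → ‖v‖ + ρ ≤ 1 →
      (1 / 2) * (∫ w in ann d h ρ, (f t x (v + w) + f t x (v - w) - 2 * f t x v) * a t x v w *
          kw d s w) - C * Cf * h ^ (2 - 2 * s) - (Lam * ∫ w in far d ρ, kw d s w) * f t x v ≤
        Lop s a f t x v := by
  obtain ⟨C0, hC0, hnear⟩ := near_bound d hd s hs hs1
  have hLam0 : 0 < Lam := lt_of_lt_of_le hlam hLam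
  refine ⟨Lam * C0, by positivity, ?_⟩
  intro η Cf a f G hL hf t x v hA h ρ ht ht' hx hh hhρ hv
  obtain ⟨hn1, hn2⟩ := hnear h hh
  have hCf := hL.Cf0
  set g : Vd d → ℝ := fun w => (f t x (v + w) + f t x (v - w) - 2 * f t x v) * a t x v w * kw d s w
    with hg
  have hgm : Measurable g := by
    have h1 := hL.meas t x
    have h2 := hA.meas
    have h3 : Measurable (fun w : Vd d => f t x (v + w)) := h1.comp (measurable_const.add measurable_id)
    have h4 : Measurable (fun w : Vd d => f t x (v - w)) := h1.comp (measurable_const.sub measurable_id)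
    exact (((h3.add h4).sub measurable_const).mul h2).mul kw_meas
  have ha0 : ∀ w, 0 ≤ a t x v w := fun w => hlam.le.trans (hA.lo w)
  have ha1 : ∀ w, a t x v w ≤ Lam := hA.hi
  -- bound near the origin
  have hb : ∀ w ∈ bal d h, |g w| ≤ Cf * Lam * (‖w‖ ^ 2 * kw d s w) := by
    intro w hw
    have hw' : ‖w‖ < h := hw
    have h1 := hL.sd t x v w 0 ht ht' hx (by linarith) (by simp)
    have h2 : |f t x (v + w) + f t x (v - w) - 2 * f t x v| ≤ Cf * ‖w‖ ^ 2 := by
      rw [abs_sub_comm] at h1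
      simp only [add_zero, sub_zero] at h1
      calc |f t x (v + w) + f t x (v - w) - 2 * f t x v|
          = |f t x (v + w) + f t x (v - w) - (f t x v + f t x v)| := by ring_nf
        _ ≤ Cf * ‖w‖ * ‖w‖ := h1
        _ = Cf * ‖w‖ ^ 2 := by ring
    simp only [hg]
    rw [abs_mul, abs_mul, abs_of_nonneg (ha0 w), abs_of_nonneg (kw_nonneg w)]
    calc |f t x (v + w) + f t x (v - w) - 2 * f t x v| * a t x v w * kw d s w
        ≤ (Cf * ‖w‖ ^ 2) * Lam * kw d s w := by
          refine mul_le_mul_of_nonneg_right ?_ (kw_nonneg w)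
          exact mul_le_mul h2 (ha1 w) (ha0 w) (by positivity)
      _ = Cf * Lam * (‖w‖ ^ 2 * kw d s w) := by ring
  have hI1 : IntegrableOn g (bal d h) := by
    refine Integrable.mono' (hn1.const_mul (Cf * Lam)) hgm.aestronglyMeasurable ?_
    rw [ae_restrict_iff' (bal_meas h)]
    exact Filter.Eventually.of_forall (fun w hw => by rw [Real.norm_eq_abs]; exact hb w hw)
  -- bound away from the origin
  have hfar : ∀ w, |g w| ≤ 4 * Cf * Lam * kw d s w := by
    intro w
    have h1 := abs_le.1 (hL.bdd t x (v + w))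
    have h2 := abs_le.1 (hL.bdd t x (v - w))
    have h3 := abs_le.1 (hL.bdd t x v)
    have h4 : |f t x (v + w) + f t x (v - w) - 2 * f t x v| ≤ 4 * Cf := by
      rw [abs_le]; constructor <;> linarith [h1.1, h1.2, h2.1, h2.2, h3.1, h3.2]
    simp only [hg]
    rw [abs_mul, abs_mul, abs_of_nonneg (ha0 w), abs_of_nonneg (kw_nonneg w)]
    refine mul_le_mul_of_nonneg_right ?_ (kw_nonneg w)
    exact mul_le_mul h4 (ha1 w) (ha0 w) (by positivity)
  have hIf : ∀ r : ℝ, 0 < r → IntegrableOn g (far d r) := by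
    intro r hr
    refine Integrable.mono' ((far_integrable d hd s hs r hr).const_mul (4 * Cf * Lam))
      hgm.aestronglyMeasurable ?_
    exact Filter.Eventually.of_forall (fun w => by rw [Real.norm_eq_abs]; exact hfar w)
  have hI2 : IntegrableOn g (ann d h ρ) :=
    (hIf h hh).mono_set (fun w hw => hw.1)
  have hI3 : IntegrableOn g (far d ρ) := hIf ρ (lt_of_lt_of_le hh hhρ)
  -- the near part
  have e1 : -(Cf * Lam * (C0 * h ^ (2 - 2 * s))) ≤ ∫ w in bal d h, g w := by
    have h1 : |∫ w in bal d h, g w| ≤ ∫ w in bal d h, Cf * Lam * (‖w‖ ^ 2 * kw d s w) := by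
      rw [← Real.norm_eq_abs]
      refine norm_integral_le_of_norm_le (hn1.const_mul (Cf * Lam)) ?_
      rw [ae_restrict_iff' (bal_meas h)]
      exact Filter.Eventually.of_forall (fun w hw => by rw [Real.norm_eq_abs]; exact hb w hw)
    rw [integral_const_mul] at h1
    have h2 : Cf * Lam * ∫ w in bal d h, ‖w‖ ^ 2 * kw d s w ≤ Cf * Lam * (C0 * h ^ (2 - 2 * s)) :=
      mul_le_mul_of_nonneg_left hn2 (by positivity)
    have h3 := (abs_le.1 h1).1
    linarith
  -- the far part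
  have e3 : -(2 * f t x v * Lam * ∫ w in far d ρ, kw d s w) ≤ ∫ w in far d ρ, g w := by
    have h1 : ∫ w in far d ρ, (-(2 * f t x v * Lam)) * kw d s w ≤ ∫ w in far d ρ, g w := by
      refine setIntegral_mono_on ((far_integrable d hd s hs ρ (lt_of_lt_of_le hh hhρ)).const_mul _)
        hI3 (far_meas ρ) ?_
      intro w _
      simp only [hg]
      refine mul_le_mul_of_nonneg_right ?_ (kw_nonneg w)
      have h2 := mul_nonneg (add_nonneg (hf t x (v + w)) (hf t x (v - w))) (ha0 w)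
      have h3 := mul_le_mul_of_nonneg_left (ha1 w) (hf t x v)
      nlinarith
    rw [integral_const_mul] at h1
    linarith
  have e0 : Lop s a f t x v = (1 / 2) * ∫ w, g w := rfl
  rw [e0, int_split hhρ hI1 hI2 hI3]
  have hC : 0 ≤ Cf * Lam * (C0 * h ^ (2 - 2 * s)) :=
    mul_nonneg (mul_nonneg hCf hLam0.le) (mul_nonneg hC0 (Real.rpow_nonneg hh.le _))
  have hring : Lam * C0 * Cf * h ^ (2 - 2 * s) = Cf * Lam * (C0 * h ^ (2 - 2 * s)) := by ring
  rw [hring]
  linarith

end KD.II.D2
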